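import Mathlib

/-!
# Volume of a simplicial cone: real analysis part
-/

set_option autoImplicit false

namespace Pool.Agent.TH158.CW

open MeasureTheory Set
open scoped ENNReal Topology

theorem exp_ineq {r d : ℝ} (hr : 0 ≤ r) (hd : 0 ≤ d) :
    3 + 3 * (r + d) + (r + d) ^ 2 + (d * (2 * r + d)) * (1 + (r + d)) / 2 +
      (d * (2 * r + d)) ^ 2 / 8 ≤ (3 + 3 * r + r ^ 2) * Real.exp d := by
  have h := Real.sum_le_exp_of_nonneg hd 5
  simp only [Finset.sum_range_succ, Finset.sum_range_zero, Nat.factorial] at h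
  norm_num at h
  have h3 : 0 ≤ 3 + 3 * r + r ^ 2 := by positivity
  have h4 := mul_le_mul_of_nonneg_left h h3
  have h5 : 0 ≤ d ^ 3 * r ^ 2 := by positivity
  have h6 : 0 ≤ d ^ 4 * r := by positivity
  have h7 : 0 ≤ d ^ 4 * r ^ 2 := by positivity
  nlinarith [h4, h5, h6, h7]

/-- The weight function. -/
noncomputable def phi (r : ℝ) : ℝ := (3 + 3 * r + r ^ 2) * Real.exp (-r)

theorem le_of_sq_le_sq' {a b : ℝ} (h : a ^ 2 ≤ b ^ 2) (_ha : 0 ≤ a) (hb : 0 ≤ b) : a ≤ b := by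
  by_contra hc
  push Not at hc
  nlinarith

theorem phi_lower {l R : ℝ} (hl : 0 ≤ l) (hR : 0 ≤ R) (hRl : R ≤ l ^ 2) :
    (3 + 3 * l + l ^ 2 + R * (1 + l) / 2 + R ^ 2 / 8) * Real.exp (-l) ≤
      phi (√(l ^ 2 - R)) := by
  set r := √(l ^ 2 - R) with hr
  have hr0 : 0 ≤ r := Real.sqrt_nonneg _
  have hr2 : r ^ 2 = l ^ 2 - R := Real.sq_sqrt (by linarith)
  have hrl : r ≤ l := by
    have : r ^ 2 ≤ l ^ 2 := by rw [hr2]; linarith
    exact le_of_sq_le_sq' this hr0 hl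
  have h := exp_ineq hr0 (sub_nonneg.2 hrl)
  have e1 : (l - r) * (2 * r + (l - r)) = R := by nlinarith [hr2]
  have e2 : r + (l - r) = l := by ring
  rw [e1, e2] at h
  have h2 := mul_le_mul_of_nonneg_right h (Real.exp_pos (-l)).le
  refine h2.trans_eq ?_
  unfold phi
  rw [mul_assoc, ← Real.exp_add]
  congr 2
  ring

theorem tail_phi {a : ℝ} (ha : 0 ≤ a) :
    ∫⁻ r in Ioi a, ENNReal.ofReal ((r + r ^ 2) * Real.exp (-r)) = ENNReal.ofReal (phi a) := by
  have hd : ∀ x ∈ Ici a, HasDerivAt (fun r : ℝ => -phi r) ((x + x ^ 2) * Real.exp (-x)) x := by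
    intro x _
    unfold phi
    have h1 : HasDerivAt (fun r : ℝ => 3 + 3 * r + r ^ 2) (3 + 2 * x) x := by
      have h0 : HasDerivAt (fun r : ℝ => 3 + 3 * r) 3 x := by
        have := ((hasDerivAt_id x).const_mul (3 : ℝ)).const_add 3
        simpa using this
      have h1 : HasDerivAt (fun r : ℝ => r ^ 2) (2 * x) x := by
        simpa using hasDerivAt_pow 2 x
      exact h0.add h1
    have h2 : HasDerivAt (fun r : ℝ => Real.exp (-r)) (-Real.exp (-x)) x := by
      have := (hasDerivAt_neg x).exp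
      simpa using this
    have h3 : HasDerivAt (fun r : ℝ => -((3 + 3 * r + r ^ 2) * Real.exp (-r)))
        (-((3 + 2 * x) * Real.exp (-x) + (3 + 3 * x + x ^ 2) * (-Real.exp (-x)))) x :=
      (h1.mul h2).neg
    refine h3.congr_deriv ?_
    ring
  have hpos : ∀ x ∈ Ioi a, 0 ≤ (x + x ^ 2) * Real.exp (-x) := by
    intro x hx
    have : 0 ≤ x := ha.trans (le_of_lt hx)
    positivity
  have ht : Filter.Tendsto (fun r : ℝ => -phi r) Filter.atTop (𝓝 0) := by
    have h0 := Real.tendsto_pow_mul_exp_neg_atTop_nhds_zero 0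
    have h1 := Real.tendsto_pow_mul_exp_neg_atTop_nhds_zero 1
    have h2 := Real.tendsto_pow_mul_exp_neg_atTop_nhds_zero 2
    have h3 := ((h0.const_mul 3).add ((h1.const_mul 3).add h2)).neg
    simp only [mul_zero, add_zero, neg_zero] at h3
    refine h3.congr ?_
    intro x
    unfold phi
    ring
  have hi := integrableOn_Ioi_deriv_of_nonneg' hd hpos ht
  have hv := integral_Ioi_of_hasDerivAt_of_nonneg' hd hpos ht
  rw [← ofReal_integral_eq_lintegral_ofReal hi ((ae_restrict_iff' measurableSet_Ioi).2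
    (Filter.Eventually.of_forall hpos)), hv]
  congr 1
  ring

theorem int_mono (n : ℕ) :
    IntegrableOn (fun s : ℝ => s ^ n * Real.exp (-s)) (Ioi 0) ∧
      ∫ s in Ioi (0 : ℝ), s ^ n * Real.exp (-s) = (n.factorial : ℝ) := by
  have h1 : (0 : ℝ) < (n : ℝ) + 1 := by positivity
  have hc := Real.GammaIntegral_convergent h1
  have hg := Real.Gamma_eq_integral h1
  rw [Real.Gamma_nat_eq_factorial] at hg
  have he : ∀ x ∈ Ioi (0 : ℝ), Real.exp (-x) * x ^ ((n : ℝ) + 1 - 1) = x ^ n * Real.exp (-x) := by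
    intro x _
    rw [add_sub_cancel_right, Real.rpow_natCast, mul_comm]
  refine ⟨(integrableOn_congr_fun he measurableSet_Ioi).1 hc, ?_⟩
  rw [hg]
  exact (setIntegral_congr_fun measurableSet_Ioi he).symm

/-- Integrability on the half line together with the value of the integral. -/
def HasI (f : ℝ → ℝ) (a : ℝ) : Prop :=
  IntegrableOn f (Ioi 0) ∧ ∫ s in Ioi (0 : ℝ), f s = a

theorem HasI.add {f g : ℝ → ℝ} {a b : ℝ} (hf : HasI f a) (hg : HasI g b) :
    HasI (fun s => f s + g s) (a + b) :=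
  ⟨hf.1.add hg.1, by rw [integral_add hf.1 hg.1, hf.2, hg.2]⟩

theorem HasI.mul {f : ℝ → ℝ} {a : ℝ} (hf : HasI f a) (c : ℝ) :
    HasI (fun s => c * f s) (c * a) :=
  ⟨hf.1.const_mul c, by rw [integral_const_mul, hf.2]⟩

theorem lint_poly (c0 c1 c2 c3 c4 : ℝ)
    (h : ∀ s : ℝ, 0 < s → 0 ≤ c0 + c1 * s + c2 * s ^ 2 + c3 * s ^ 3 + c4 * s ^ 4) :
    ∫⁻ s in Ioi (0 : ℝ), ENNReal.ofReal ((c0 + c1 * s + c2 * s ^ 2 + c3 * s ^ 3 + c4 * s ^ 4) *
      Real.exp (-s)) = ENNReal.ofReal (c0 + c1 + 2 * c2 + 6 * c3 + 24 * c4) := by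
  have i0 : HasI _ _ := int_mono 0
  have i1 : HasI _ _ := int_mono 1
  have i2 : HasI _ _ := int_mono 2
  have i3 : HasI _ _ := int_mono 3
  have i4 : HasI _ _ := int_mono 4
  have H := ((((i0.mul c0).add (i1.mul c1)).add (i2.mul c2)).add (i3.mul c3)).add (i4.mul c4)
  have he : (fun s : ℝ => (c0 + c1 * s + c2 * s ^ 2 + c3 * s ^ 3 + c4 * s ^ 4) * Real.exp (-s)) =
      (fun s => c0 * (s ^ 0 * Real.exp (-s)) + c1 * (s ^ 1 * Real.exp (-s)) +
      c2 * (s ^ 2 * Real.exp (-s)) + c3 * (s ^ 3 * Real.exp (-s)) +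
      c4 * (s ^ 4 * Real.exp (-s))) := by
    funext s; ring
  rw [← he] at H
  rw [← ofReal_integral_eq_lintegral_ofReal H.1 ((ae_restrict_iff' measurableSet_Ioi).2
    (Filter.Eventually.of_forall fun s hs => mul_nonneg (h s hs) (Real.exp_pos _).le)), H.2]
  congr 1
  norm_num [Nat.factorial]
  ring

end Pool.Agent.TH158.CW
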