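import Pool.Agent.TH158.CW.Simp1

/-!
# Volume of a simplicial cone: the integral over the orthant
-/

set_option autoImplicit false

namespace Pool.Agent.TH158.CW

open MeasureTheory Set
open scoped ENNReal Topology

/-- Expectation of a quadratic polynomial against the exponential law, by values. -/
noncomputable def EE (p : ℝ → ℝ) : ℝ := -p 0 + 3 / 2 * p 1 + 1 / 2 * p (-1)

/-- The function is a quadratic polynomial. -/
def Quad (p : ℝ → ℝ) : Prop :=
  ∀ s, p s = p 0 + (p 1 - p (-1)) / 2 * s + ((p 1 + p (-1)) / 2 - p 0) * s ^ 2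

theorem lint_quad {p : ℝ → ℝ} (hq : Quad p) (hp : ∀ s, 0 < s → 0 ≤ p s) :
    0 ≤ EE p ∧ ∫⁻ s in Ioi (0 : ℝ), ENNReal.ofReal (p s * Real.exp (-s)) =
      ENNReal.ofReal (EE p) := by
  have i0 : HasI _ _ := int_mono 0
  have i1 : HasI _ _ := int_mono 1
  have i2 : HasI _ _ := int_mono 2
  have H := ((i0.mul (p 0)).add (i1.mul ((p 1 - p (-1)) / 2))).add
    (i2.mul ((p 1 + p (-1)) / 2 - p 0))
  have he : (fun s : ℝ => p s * Real.exp (-s)) =
      (fun s => p 0 * (s ^ 0 * Real.exp (-s)) + (p 1 - p (-1)) / 2 * (s ^ 1 * Real.exp (-s)) +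
      ((p 1 + p (-1)) / 2 - p 0) * (s ^ 2 * Real.exp (-s))) := by
    funext s
    conv_lhs => rw [hq s]
    ring
  rw [← he] at H
  have hpos : 0 ≤ᵐ[volume.restrict (Ioi 0)] fun s : ℝ => p s * Real.exp (-s) :=
    (ae_restrict_iff' measurableSet_Ioi).2
    (Filter.Eventually.of_forall fun s hs => mul_nonneg (hp s hs) (Real.exp_pos _).le)
  have hE : EE p = p 0 * ((Nat.factorial 0 : ℕ) : ℝ) +
      (p 1 - p (-1)) / 2 * ((Nat.factorial 1 : ℕ) : ℝ) +
      ((p 1 + p (-1)) / 2 - p 0) * ((Nat.factorial 2 : ℕ) : ℝ) := by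
    unfold EE
    norm_num [Nat.factorial]
    ring
  constructor
  · rw [hE, ← H.2]
    exact integral_nonneg_of_ae hpos
  · rw [← ofReal_integral_eq_lintegral_ofReal H.1 hpos, H.2, hE]

/-- The polynomial minorant. -/
noncomputable def P4 (a b c d e f x0 x1 x2 x3 : ℝ) : ℝ :=
  3 + 3 * (x0 + x1 + x2 + x3) + (x0 + x1 + x2 + x3) ^ 2 +
    (a * x0 * x1 + b * x0 * x2 + c * x0 * x3 + d * x1 * x2 + e * x1 * x3 + f * x2 * x3) *
      (1 + (x0 + x1 + x2 + x3)) / 2 +
    (a * x0 * x1 + b * x0 * x2 + c * x0 * x3 + d * x1 * x2 + e * x1 * x3 + f * x2 * x3) ^ 2 / 8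

noncomputable def P3 (a b c d e f x0 x1 x2 : ℝ) : ℝ := EE (P4 a b c d e f x0 x1 x2)
noncomputable def P2 (a b c d e f x0 x1 : ℝ) : ℝ := EE (P3 a b c d e f x0 x1)
noncomputable def P1 (a b c d e f x0 : ℝ) : ℝ := EE (P2 a b c d e f x0)
noncomputable def P0 (a b c d e f : ℝ) : ℝ := EE (P1 a b c d e f)

variable (a b c d e f : ℝ)

theorem quad4 (x0 x1 x2 : ℝ) : Quad (P4 a b c d e f x0 x1 x2) := by
  intro s; unfold P4; ring

theorem quad3 (x0 x1 : ℝ) : Quad (P3 a b c d e f x0 x1) := by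
  intro s; unfold P3 EE P4; ring

theorem quad2 (x0 : ℝ) : Quad (P2 a b c d e f x0) := by
  intro s; unfold P2 P3 EE P4; ring

theorem quad1 : Quad (P1 a b c d e f) := by
  intro s; unfold P1 P2 P3 EE P4; ring

theorem P0_eq : P0 a b c d e f = 35 + 7 / 2 * (a + b + c + d + e + f) +
    (4 * (a ^ 2 + b ^ 2 + c ^ 2 + d ^ 2 + e ^ 2 + f ^ 2) +
      4 * (a * b + a * c + a * d + a * e + b * c + b * d + b * f + c * e + c * f + d * e + d * f +
        e * f) + 2 * (a * f + b * e + c * d)) / 8 := by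
  unfold P0 P1 P2 P3 EE P4; ring

theorem P0_ge : 35 + 7 / 2 * (a + b + c + d + e + f) + 13 / 48 * (a + b + c + d + e + f) ^ 2 ≤
    P0 a b c d e f := by
  rw [P0_eq]
  nlinarith [sq_nonneg (a - f), sq_nonneg (b - e), sq_nonneg (c - d), sq_nonneg (a - b),
    sq_nonneg (a - c), sq_nonneg (a - d), sq_nonneg (a - e), sq_nonneg (b - c), sq_nonneg (b - d),
    sq_nonneg (b - f), sq_nonneg (c - e), sq_nonneg (c - f), sq_nonneg (d - e), sq_nonneg (d - f),
    sq_nonneg (e - f)]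

end Pool.Agent.TH158.CW
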