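import Pool.Agent.TH158.CW.Simp2

/-!
# Volume of a simplicial cone: iterated integration
-/

set_option autoImplicit false

namespace Pool.Agent.TH158.CW

open MeasureTheory Set
open scoped ENNReal Topology

variable (a b c d e f : ℝ)

theorem P4_nonneg (ha : 0 ≤ a) (hb : 0 ≤ b) (hc : 0 ≤ c) (hd : 0 ≤ d) (he : 0 ≤ e) (hf : 0 ≤ f)
    {x0 x1 x2 x3 : ℝ} (h0 : 0 ≤ x0) (h1 : 0 ≤ x1) (h2 : 0 ≤ x2) (h3 : 0 ≤ x3) :
    0 ≤ P4 a b c d e f x0 x1 x2 x3 := by
  unfold P4; positivity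

/-- the half line measure -/
noncomputable abbrev rho : Measure ℝ := volume.restrict (Ioi (0 : ℝ))

noncomputable def F4 (x : Fin 4 → ℝ) : ℝ≥0∞ :=
  ENNReal.ofReal (P4 a b c d e f |x 0| |x 1| |x 2| |x 3| *
    Real.exp (-(|x 0| + |x 1| + |x 2| + |x 3|)))
noncomputable def F3 (x : Fin 4 → ℝ) : ℝ≥0∞ :=
  ENNReal.ofReal (P3 a b c d e f |x 0| |x 1| |x 2| * Real.exp (-(|x 0| + |x 1| + |x 2|)))
noncomputable def F2 (x : Fin 4 → ℝ) : ℝ≥0∞ :=
  ENNReal.ofReal (P2 a b c d e f |x 0| |x 1| * Real.exp (-(|x 0| + |x 1|)))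
noncomputable def F1 (x : Fin 4 → ℝ) : ℝ≥0∞ :=
  ENNReal.ofReal (P1 a b c d e f |x 0| * Real.exp (-|x 0|))

/-- One step of the iterated integration. -/
theorem step {p : ℝ → ℝ} (hq : Quad p) (hp : ∀ s, 0 < s → 0 ≤ p s) (A : ℝ) :
    ∫⁻ s, ENNReal.ofReal (p |s| * Real.exp (-(A + |s|))) ∂rho =
      ENNReal.ofReal (EE p * Real.exp (-A)) := by
  have h1 : ∫⁻ s, ENNReal.ofReal (p |s| * Real.exp (-(A + |s|))) ∂rho =
      ∫⁻ s in Ioi (0 : ℝ), ENNReal.ofReal (Real.exp (-A)) *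
        ENNReal.ofReal (p s * Real.exp (-s)) := by
    refine setLIntegral_congr_fun measurableSet_Ioi ?_
    intro s hs
    have hs' : |s| = s := abs_of_pos hs
    simp only [hs']
    rw [← ENNReal.ofReal_mul (Real.exp_pos _).le]
    congr 1
    rw [neg_add, Real.exp_add]
    ring
  rw [h1, lintegral_const_mul', (lint_quad hq hp).2, ← ENNReal.ofReal_mul (Real.exp_pos _).le,
    mul_comm]
  exact ENNReal.ofReal_ne_top

variable {a b c d e f}

theorem P3_nonneg (ha : 0 ≤ a) (hb : 0 ≤ b) (hc : 0 ≤ c) (hd : 0 ≤ d) (he : 0 ≤ e) (hf : 0 ≤ f)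
    {x0 x1 x2 : ℝ} (h0 : 0 ≤ x0) (h1 : 0 ≤ x1) (h2 : 0 ≤ x2) :
    0 ≤ P3 a b c d e f x0 x1 x2 :=
  (lint_quad (quad4 a b c d e f x0 x1 x2)
    fun _ hs => P4_nonneg a b c d e f ha hb hc hd he hf h0 h1 h2 hs.le).1

theorem P2_nonneg (ha : 0 ≤ a) (hb : 0 ≤ b) (hc : 0 ≤ c) (hd : 0 ≤ d) (he : 0 ≤ e) (hf : 0 ≤ f)
    {x0 x1 : ℝ} (h0 : 0 ≤ x0) (h1 : 0 ≤ x1) :
    0 ≤ P2 a b c d e f x0 x1 :=
  (lint_quad (quad3 a b c d e f x0 x1)
    fun _ hs => P3_nonneg ha hb hc hd he hf h0 h1 hs.le).1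

theorem P1_nonneg (ha : 0 ≤ a) (hb : 0 ≤ b) (hc : 0 ≤ c) (hd : 0 ≤ d) (he : 0 ≤ e) (hf : 0 ≤ f)
    {x0 : ℝ} (h0 : 0 ≤ x0) :
    0 ≤ P1 a b c d e f x0 :=
  (lint_quad (quad2 a b c d e f x0)
    fun _ hs => P2_nonneg ha hb hc hd he hf h0 hs.le).1

theorem lint_F4 (ha : 0 ≤ a) (hb : 0 ≤ b) (hc : 0 ≤ c) (hd : 0 ≤ d) (he : 0 ≤ e) (hf : 0 ≤ f) :
    ∫⁻ x, F4 a b c d e f x ∂(Measure.pi fun _ : Fin 4 => rho) =
      ENNReal.ofReal (P0 a b c d e f) := by
  have m4 : Measurable (F4 a b c d e f) := by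
    unfold F4 P4; fun_prop
  have m3 : Measurable (F3 a b c d e f) := by
    unfold F3 P3 EE P4; fun_prop
  have m2 : Measurable (F2 a b c d e f) := by
    unfold F2 P2 P3 EE P4; fun_prop
  have m1 : Measurable (F1 a b c d e f) := by
    unfold F1 P1 P2 P3 EE P4; fun_prop
  have s3 : (fun x : Fin 4 → ℝ => ∫⁻ s, F4 a b c d e f (Function.update x 3 s) ∂rho) =
      F3 a b c d e f := by
    funext x
    have := step (quad4 a b c d e f |x 0| |x 1| |x 2|)
      (fun s hs => P4_nonneg a b c d e f ha hb hc hd he hf (abs_nonneg _) (abs_nonneg _)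
        (abs_nonneg _) hs.le) (|x 0| + |x 1| + |x 2|)
    simpa [F4, F3, P3, Function.update_of_ne, Function.update_self] using this
  have s2 : (fun x : Fin 4 → ℝ => ∫⁻ s, F3 a b c d e f (Function.update x 2 s) ∂rho) =
      F2 a b c d e f := by
    funext x
    have := step (quad3 a b c d e f |x 0| |x 1|)
      (fun s hs => P3_nonneg ha hb hc hd he hf (abs_nonneg _) (abs_nonneg _) hs.le)
      (|x 0| + |x 1|)
    simpa [F3, F2, P2, Function.update_of_ne, Function.update_self] using this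
  have s1 : (fun x : Fin 4 → ℝ => ∫⁻ s, F2 a b c d e f (Function.update x 1 s) ∂rho) =
      F1 a b c d e f := by
    funext x
    have := step (quad2 a b c d e f |x 0|)
      (fun s hs => P2_nonneg ha hb hc hd he hf (abs_nonneg _) hs.le) (|x 0|)
    simpa [F2, F1, P1, Function.update_of_ne, Function.update_self] using this
  have s0 : ∀ x : Fin 4 → ℝ, ∫⁻ s, F1 a b c d e f (Function.update x 0 s) ∂rho =
      ENNReal.ofReal (P0 a b c d e f) := by
    intro x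
    have := step (quad1 a b c d e f)
      (fun s hs => P1_nonneg ha hb hc hd he hf hs.le) 0
    simpa [F1, P0, Function.update_self] using this
  have hu : (Finset.univ : Finset (Fin 4)) = insert 3 (insert 2 (insert 1 {0})) := by decide
  rw [lintegral_eq_lmarginal_univ (fun _ => (0 : ℝ)), hu,
    lmarginal_insert' _ m4 (by decide), s3, lmarginal_insert' _ m3 (by decide), s2,
    lmarginal_insert' _ m2 (by decide), s1, lmarginal_singleton]
  exact s0 _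

end Pool.Agent.TH158.CW
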