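import Pool.Agent.TH158.CW.Simp3

/-!
# Volume of a simplicial cone: layer cake and scaling
-/

set_option autoImplicit false

namespace Pool.Agent.TH158.CW

open MeasureTheory Set
open scoped ENNReal Topology Pointwise

/-- The open orthant. -/
def Orth : Set (Fin 4 → ℝ) := Set.univ.pi fun _ => Ioi (0 : ℝ)

theorem mem_Orth {t : Fin 4 → ℝ} : t ∈ Orth ↔ ∀ i, 0 < t i := by
  simp [Orth]

theorem measurableSet_Orth : MeasurableSet Orth :=
  MeasurableSet.univ_pi fun _ => measurableSet_Ioi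

theorem restrict_Orth : (volume : Measure (Fin 4 → ℝ)).restrict Orth =
    Measure.pi fun _ : Fin 4 => rho := by
  rw [volume_pi, Orth, Measure.restrict_pi_pi]

/-- The quadratic form `(sum t)^2 - R(t)`. -/
noncomputable def QF (a b c d e f : ℝ) (t : Fin 4 → ℝ) : ℝ :=
  (t 0 + t 1 + t 2 + t 3) ^ 2 -
    (a * t 0 * t 1 + b * t 0 * t 2 + c * t 0 * t 3 + d * t 1 * t 2 + e * t 1 * t 3 +
      f * t 2 * t 3)

theorem QF_smul (a b c d e f r : ℝ) (t : Fin 4 → ℝ) :
    QF a b c d e f (r • t) = r ^ 2 * QF a b c d e f t := by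
  simp only [QF, Pi.smul_apply, smul_eq_mul]; ring

theorem continuous_QF (a b c d e f : ℝ) : Continuous (QF a b c d e f) := by
  unfold QF; fun_prop

theorem lint_840 : ∫⁻ r in Ioi (0 : ℝ), ENNReal.ofReal ((r + r ^ 2) * Real.exp (-r)) *
    ENNReal.ofReal (r ^ 4) = 840 := by
  have i5 : HasI _ _ := int_mono 5
  have i6 : HasI _ _ := int_mono 6
  have H := i5.add i6
  have h1 : ∫⁻ r in Ioi (0 : ℝ), ENNReal.ofReal ((r + r ^ 2) * Real.exp (-r)) *
      ENNReal.ofReal (r ^ 4) =
      ∫⁻ r in Ioi (0 : ℝ), ENNReal.ofReal (r ^ 5 * Real.exp (-r) + r ^ 6 * Real.exp (-r)) := by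
    refine setLIntegral_congr_fun measurableSet_Ioi ?_
    intro s hs
    have hs' : (0 : ℝ) < s := hs
    simp only
    rw [← ENNReal.ofReal_mul (by positivity)]
    congr 1
    ring
  rw [h1, ← ofReal_integral_eq_lintegral_ofReal H.1 ((ae_restrict_iff' measurableSet_Ioi).2
    (Filter.Eventually.of_forall fun s hs => by
      have hs' : (0 : ℝ) < s := hs
      show 0 ≤ s ^ 5 * Real.exp (-s) + s ^ 6 * Real.exp (-s)
      positivity)), H.2]
  norm_num [Nat.factorial]

theorem vol_scale (a b c d e f : ℝ) {r : ℝ} (hr : 0 < r) :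
    volume {t : Fin 4 → ℝ | t ∈ Orth ∧ √(QF a b c d e f t) < r} =
      ENNReal.ofReal (r ^ 4) * volume {t : Fin 4 → ℝ | t ∈ Orth ∧ √(QF a b c d e f t) < 1} := by
  have h : {t : Fin 4 → ℝ | t ∈ Orth ∧ √(QF a b c d e f t) < r} =
      r • {t : Fin 4 → ℝ | t ∈ Orth ∧ √(QF a b c d e f t) < 1} := by
    ext t
    rw [Set.mem_smul_set_iff_inv_smul_mem₀ hr.ne']
    simp only [Set.mem_ofPred_eq, mem_Orth, Pi.smul_apply, smul_eq_mul, QF_smul]
    have hri : 0 < r⁻¹ := inv_pos.2 hr
    rw [Real.sqrt_mul (by positivity), Real.sqrt_sq hri.le]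
    constructor
    · rintro ⟨h1, h2⟩
      refine ⟨fun i => mul_pos hri (h1 i), ?_⟩
      rw [inv_mul_lt_iff₀ hr, mul_one]
      exact h2
    · rintro ⟨h1, h2⟩
      refine ⟨fun i => (mul_pos_iff_of_pos_left hri).1 (h1 i), ?_⟩
      rw [inv_mul_lt_iff₀ hr, mul_one] at h2
      exact h2
  rw [h, Measure.addHaar_smul]
  congr 2
  simp [abs_of_pos (pow_pos hr 4)]

theorem orth_vol (a b c d e f : ℝ) (ha : 0 ≤ a) (hb : 0 ≤ b) (hc : 0 ≤ c) (hd : 0 ≤ d)
    (he : 0 ≤ e) (hf : 0 ≤ f) (hQ : ∀ t ∈ Orth, 0 ≤ QF a b c d e f t) :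
    ENNReal.ofReal (P0 a b c d e f) ≤
      840 * volume {t : Fin 4 → ℝ | t ∈ Orth ∧ √(QF a b c d e f t) < 1} := by
  rw [← lint_F4 ha hb hc hd he hf, ← restrict_Orth]
  have hstep1 : ∫⁻ x in Orth, F4 a b c d e f x ≤
      ∫⁻ x in Orth, ENNReal.ofReal (phi (√(QF a b c d e f x))) := by
    refine setLIntegral_mono' measurableSet_Orth ?_
    intro x hx
    have hx' := mem_Orth.1 hx
    unfold F4
    refine ENNReal.ofReal_le_ofReal ?_
    rw [abs_of_pos (hx' 0), abs_of_pos (hx' 1), abs_of_pos (hx' 2), abs_of_pos (hx' 3)]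
    have h0 := (hx' 0).le
    have h1 := (hx' 1).le
    have h2 := (hx' 2).le
    have h3 := (hx' 3).le
    have := phi_lower (l := x 0 + x 1 + x 2 + x 3)
      (R := a * x 0 * x 1 + b * x 0 * x 2 + c * x 0 * x 3 + d * x 1 * x 2 + e * x 1 * x 3 +
      f * x 2 * x 3) (by positivity) (by positivity) (by
        have := hQ x hx
        unfold QF at this
        linarith)
    exact this
  refine hstep1.trans ?_
  have hmQ : Measurable fun x : Fin 4 → ℝ => √(QF a b c d e f x) :=
    ((continuous_QF a b c d e f).sqrt).measurable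
  have hg : Measurable fun r : ℝ => ENNReal.ofReal ((r + r ^ 2) * Real.exp (-r)) := by fun_prop
  have hstep2 : ∫⁻ x in Orth, ENNReal.ofReal (phi (√(QF a b c d e f x))) =
      ∫⁻ x in Orth, ∫⁻ r in Ioi (0 : ℝ),
        ({p : (Fin 4 → ℝ) × ℝ | √(QF a b c d e f p.1) < p.2}.indicator
          (fun p => ENNReal.ofReal ((p.2 + p.2 ^ 2) * Real.exp (-p.2))) (x, r)) := by
    refine lintegral_congr fun x => ?_
    rw [← tail_phi (Real.sqrt_nonneg _)]
    rw [← lintegral_indicator measurableSet_Ioi, ← lintegral_indicator measurableSet_Ioi]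
    refine lintegral_congr fun r => ?_
    by_cases h1 : √(QF a b c d e f x) < r
    · have h2 : 0 < r := (Real.sqrt_nonneg _).trans_lt h1
      simp [Set.indicator, h1, h2]
    · simp [Set.indicator, h1]
  have hS : MeasurableSet {p : (Fin 4 → ℝ) × ℝ | √(QF a b c d e f p.1) < p.2} :=
    measurableSet_lt (hmQ.comp measurable_fst) measurable_snd
  rw [hstep2, lintegral_lintegral_swap]
  swap
  · refine Measurable.aemeasurable ?_
    exact Measurable.indicator (by fun_prop) hS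
  have hstep3 : ∫⁻ r in Ioi (0 : ℝ), ∫⁻ x in Orth,
        ({p : (Fin 4 → ℝ) × ℝ | √(QF a b c d e f p.1) < p.2}.indicator
          (fun p => ENNReal.ofReal ((p.2 + p.2 ^ 2) * Real.exp (-p.2))) (x, r)) =
      ∫⁻ r in Ioi (0 : ℝ), ENNReal.ofReal ((r + r ^ 2) * Real.exp (-r)) *
        ENNReal.ofReal (r ^ 4) *
        volume {t : Fin 4 → ℝ | t ∈ Orth ∧ √(QF a b c d e f t) < 1} := by
    refine setLIntegral_congr_fun measurableSet_Ioi ?_
    intro r hr
    have hr' : (0 : ℝ) < r := hr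
    simp only
    rw [mul_assoc, ← vol_scale a b c d e f hr']
    have hset : MeasurableSet {t : Fin 4 → ℝ | √(QF a b c d e f t) < r} :=
      measurableSet_lt hmQ measurable_const
    have h1 : ∀ x : Fin 4 → ℝ,
        ({p : (Fin 4 → ℝ) × ℝ | √(QF a b c d e f p.1) < p.2}.indicator
          (fun p => ENNReal.ofReal ((p.2 + p.2 ^ 2) * Real.exp (-p.2))) (x, r)) =
        ({t : Fin 4 → ℝ | √(QF a b c d e f t) < r}.indicator
          (fun _ => ENNReal.ofReal ((r + r ^ 2) * Real.exp (-r))) x) := by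
      intro x
      simp [Set.indicator]
    simp only [h1]
    rw [lintegral_indicator hset, setLIntegral_const, Measure.restrict_apply hset]
    congr 2
    ext t
    simp [and_comm]
  rw [hstep3, lintegral_mul_const _ (by fun_prop), lint_840]

end Pool.Agent.TH158.CW
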