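import Pool.Agent.TH378.CW.Base
import Pool.Agent.TH158.CW.Simp4

/-!
# Volume of a simplicial cone spanned by unit quaternions
-/

set_option autoImplicit false

namespace Pool.Agent.TH158.CW

open MeasureTheory Metric Set Pool.Agent.TH378.CW
open scoped Real RealInnerProductSpace ENNReal

/-- coordinates of a quaternion -/
def crd (h : H) (k : Fin 4) : ℝ := ![h.re, h.imI, h.imJ, h.imK] k

theorem inner_crd (x y : H) : ⟪x, y⟫ = ∑ k, crd x k * crd y k := by
  rw [Quaternion.inner_def]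
  simp [crd, Fin.sum_univ_four]

/-- The measurable coordinate equivalence. -/
noncomputable def eqv : H ≃ᵐ (Fin 4 → ℝ) :=
  (Quaternion.linearIsometryEquivTuple.toHomeomorph.toMeasurableEquiv).trans
    (MeasurableEquiv.toLp 2 (Fin 4 → ℝ)).symm

theorem eqv_apply (h : H) : eqv h = crd h := by
  funext k
  fin_cases k <;> simp [eqv, crd]

theorem eqv_mp : MeasurePreserving eqv volume volume :=
  (EuclideanSpace.volume_preserving_symm_measurableEquiv_toLp (Fin 4)).comp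
    (Quaternion.linearIsometryEquivTuple.measurePreserving)

theorem vol_preimage (S : Set (Fin 4 → ℝ)) : volume (eqv ⁻¹' S) = volume S :=
  eqv_mp.measure_preimage_equiv S

theorem sq_sum (v : Fin 4 → H) (hv : ∀ i, ‖v i‖ = 1) (t : Fin 4 → ℝ) :
    ‖∑ i, t i • v i‖ ^ 2 = QF (2 - 2 * ⟪v 0, v 1⟫) (2 - 2 * ⟪v 0, v 2⟫) (2 - 2 * ⟪v 0, v 3⟫)
      (2 - 2 * ⟪v 1, v 2⟫) (2 - 2 * ⟪v 1, v 3⟫) (2 - 2 * ⟪v 2, v 3⟫) t := by
  have h : ∀ i, ⟪v i, v i⟫ = (1 : ℝ) := fun i => by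
    rw [real_inner_self_eq_norm_sq, hv i]; norm_num
  have c : ∀ i j, ⟪v i, v j⟫ = ⟪v j, v i⟫ := fun i j => real_inner_comm _ _
  rw [← real_inner_self_eq_norm_sq]
  simp only [Fin.sum_univ_four, inner_add_left, inner_add_right, real_inner_smul_left,
    real_inner_smul_right, h, c 1 0, c 2 0, c 3 0, c 2 1, c 3 1, c 3 2, QF]
  ring

theorem simplex_vol (v : Fin 4 → H) (hv : ∀ i, ‖v i‖ = 1) (C : Set H)
    (hC : ∀ t : Fin 4 → ℝ, (∀ i, 0 ≤ t i) → ∑ i, t i • v i ∈ C) (X : ℝ)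
    (hX : X = 16 - ∑ i, ∑ j, ⟪v i, v j⟫) :
    ENNReal.ofReal (√(Matrix.det (Matrix.of fun i j => ⟪v i, v j⟫)) / 24 *
        (1 + X / 10 + 13 * X ^ 2 / 1680)) ≤ volume (C ∩ ball (0 : H) 1) := by
  have hle : ∀ i j, ⟪v i, v j⟫ ≤ (1 : ℝ) := fun i j => by
    have := real_inner_le_norm (v i) (v j)
    rw [hv i, hv j] at this
    linarith
  have h1 : ∀ i, ⟪v i, v i⟫ = (1 : ℝ) := fun i => by
    rw [real_inner_self_eq_norm_sq, hv i]; norm_num
  have c : ∀ i j, ⟪v i, v j⟫ = ⟪v j, v i⟫ := fun i j => real_inner_comm _ _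
  set a := 2 - 2 * ⟪v 0, v 1⟫ with ha
  set b := 2 - 2 * ⟪v 0, v 2⟫ with hb
  set c' := 2 - 2 * ⟪v 0, v 3⟫ with hc'
  set d := 2 - 2 * ⟪v 1, v 2⟫ with hd
  set e := 2 - 2 * ⟪v 1, v 3⟫ with he
  set f := 2 - 2 * ⟪v 2, v 3⟫ with hf
  have ha0 : 0 ≤ a := by have := hle 0 1; linarith
  have hb0 : 0 ≤ b := by have := hle 0 2; linarith
  have hc0 : 0 ≤ c' := by have := hle 0 3; linarith
  have hd0 : 0 ≤ d := by have := hle 1 2; linarith
  have he0 : 0 ≤ e := by have := hle 1 3; linarith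
  have hf0 : 0 ≤ f := by have := hle 2 3; linarith
  have hXs : X = a + b + c' + d + e + f := by
    rw [hX]
    simp only [Fin.sum_univ_four, h1, c 1 0, c 2 0, c 3 0, c 2 1, c 3 1, c 3 2]
    rw [ha, hb, hc', hd, he, hf]
    ring
  set A : Set (Fin 4 → ℝ) := {t | t ∈ Orth ∧ √(QF a b c' d e f t) < 1} with hA
  have hsq : ∀ t : Fin 4 → ℝ, ‖∑ i, t i • v i‖ ^ 2 = QF a b c' d e f t := sq_sum v hv
  have hvol := orth_vol a b c' d e f ha0 hb0 hc0 hd0 he0 hf0
    (fun t _ => by rw [← hsq t]; positivity)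
  -- the matrix
  set N : Matrix (Fin 4) (Fin 4) ℝ := Matrix.of fun k i => crd (v i) k with hN
  have hG : (Matrix.of fun i j => ⟪v i, v j⟫ : Matrix (Fin 4) (Fin 4) ℝ) = N.transpose * N := by
    ext i j
    rw [Matrix.mul_apply, Matrix.of_apply, inner_crd]
    rfl
  have hdet : √(Matrix.det (Matrix.of fun i j => ⟪v i, v j⟫ : Matrix (Fin 4) (Fin 4) ℝ)) =
      |N.det| := by
    rw [hG, Matrix.det_mul, Matrix.det_transpose, ← sq, Real.sqrt_sq_eq_abs]
  have hsub : eqv ⁻¹' ((Matrix.toLin' N) '' A) ⊆ C ∩ ball (0 : H) 1 := by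
    rintro h ⟨t, ht, hth⟩
    have hh : h = ∑ i, t i • v i := by
      apply eqv.injective
      rw [← hth, eqv_apply]
      funext k
      rw [Matrix.toLin'_apply]
      simp only [Matrix.mulVec, dotProduct, hN, Matrix.of_apply]
      fin_cases k <;> simp [crd, Fin.sum_univ_four] <;> ring
    refine ⟨?_, ?_⟩
    · rw [hh]
      exact hC t fun i => (mem_Orth.1 ht.1 i).le
    · rw [mem_ball_zero_iff, hh]
      have h2 := ht.2
      rw [← hsq t, Real.sqrt_sq (norm_nonneg _)] at h2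
      exact h2
  have hmeas : volume (eqv ⁻¹' ((Matrix.toLin' N) '' A)) = ENNReal.ofReal |N.det| * volume A := by
    rw [vol_preimage, Measure.addHaar_image_linearMap, LinearMap.det_toLin']
  have hP0 := P0_ge a b c' d e f
  have key : ENNReal.ofReal ((35 + 7 / 2 * X + 13 / 48 * X ^ 2) / 840) ≤ volume A := by
    have h3 : ENNReal.ofReal (35 + 7 / 2 * X + 13 / 48 * X ^ 2) ≤ 840 * volume A := by
      refine (ENNReal.ofReal_le_ofReal ?_).trans hvol
      rw [hXs]; exact hP0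
    rw [ENNReal.ofReal_div_of_pos (by norm_num)]
    refine ENNReal.div_le_of_le_mul ?_
    refine h3.trans_eq ?_
    rw [mul_comm (volume A)]
    congr 1
    norm_num
  have hX0 : 0 ≤ X := by rw [hXs]; positivity
  calc ENNReal.ofReal (√(Matrix.det (Matrix.of fun i j => ⟪v i, v j⟫)) / 24 *
        (1 + X / 10 + 13 * X ^ 2 / 1680))
      = ENNReal.ofReal |N.det| * ENNReal.ofReal ((35 + 7 / 2 * X + 13 / 48 * X ^ 2) / 840) := by
        rw [hdet, ← ENNReal.ofReal_mul (abs_nonneg _)]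
        congr 1
        ring
    _ ≤ ENNReal.ofReal |N.det| * volume A := by gcongr
    _ = volume (eqv ⁻¹' ((Matrix.toLin' N) '' A)) := hmeas.symm
    _ ≤ volume (C ∩ ball (0 : H) 1) := measure_mono hsub

end Pool.Agent.TH158.CW
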